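import Pool.Agent.H77.Lz.Phr

set_option autoImplicit false

/-!
# Trajectories without repetition cannot be cut into few simple words
-/

namespace Pool.Agent.H77.Lz

open Finset Filter Topology
open Pool.Agent.H547R3.Sub (Dec HasPer Tm par)

/-- the first `N + 1` terms are pairwise different -/
def Dist (x : ℤ) (N : ℕ) : Prop := ∀ i j, i < j → j ≤ N → (Tm (3 : ℕ) 1)^[i] x ≠ (Tm (3 : ℕ) 1)^[j] x

lemma par_shift (x : ℤ) (a j : ℕ) : par (3 : ℕ) 1 ((Tm (3 : ℕ) 1)^[a] x) j = par (3 : ℕ) 1 x (j + a) := by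
  unfold par
  rw [← Function.iterate_add_apply]

lemma cut_mono {w : ℕ → ℕ} {s : ℝ} {G a b a' b' : ℕ} {S : Finset ℕ} (h : Cut w s G a b S) (ha : a ≤ a')
    (hb : b' ≤ b) : Cut w s G a' b' S :=
  fun u v hu huv hv hno => h u v (ha.trans hu) huv (hv.trans hb) hno

/-- many cuts in every long window -/
lemma window (G r : ℕ) : ∃ δ : ℝ, 0 < δ ∧ ∃ n0 : ℕ, 1 ≤ n0 ∧ ∀ (x : ℤ) (s : ℝ) (S : Finset ℕ)
    (N a l : ℕ), 0 ≤ s → Cut (par (3 : ℕ) 1 x) s G 0 N S → a + l ≤ N → n0 ≤ l →
    2 * Real.logb 2 |(((Tm (3 : ℕ) 1)^[a] x : ℤ) : ℝ)| ≤ l → s ≤ δ * l → Dist x N →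
    r ≤ (S.filter fun t => a < t ∧ t < a + l).card := by
  obtain ⟨δ, hδ, n0, h⟩ := crit (r * G) 1 1 one_pos one_pos
  refine ⟨δ, hδ, max n0 1, le_max_right _ _, ?_⟩
  intro x s S N a l hs hcut hal hl hx hsl hdist
  by_contra hcon
  push Not at hcon
  obtain ⟨r', rfl⟩ : ∃ r', r = r' + 1 := ⟨r - 1, by omega⟩
  have h1 := cut_phr hs hcut r' a (a + l) (Nat.zero_le _) (by omega) hal (by omega)
  have h2 : Phr (par (3 : ℕ) 1 ((Tm (3 : ℕ) 1)^[a] x)) s ((r' + 1) * G) 0 l := by
    apply phr_unshift (w := par (3 : ℕ) 1 x) (d := a)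
    · rw [zero_add, add_comm l a]
      exact h1
    · intro j _ _
      exact par_shift x a j
  obtain ⟨j, q, hj, hq, -, hT⟩ := h ((Tm (3 : ℕ) 1)^[a] x) l ((le_max_left _ _).trans hl)
    (by rw [show (1 : ℝ) + 1 = 2 by norm_num]; exact hx) (phr_mono_s h2 hsl)
  rw [← Function.iterate_add_apply, ← Function.iterate_add_apply] at hT
  exact hdist (j + a) (j + q + a) (by omega) (by omega) hT.symm

lemma size_le (x : ℤ) (a : ℕ) : |(((Tm (3 : ℕ) 1)^[a] x : ℤ) : ℝ)| ≤ 2 ^ a * (|(x : ℝ)| + 1) - 1 := by
  induction a with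
  | zero => simp
  | succ a ih =>
    rw [Function.iterate_succ_apply']
    set y := (Tm (3 : ℕ) 1)^[a] x with hy
    have h1 : |((Tm (3 : ℕ) 1 y : ℤ) : ℝ)| ≤ 2 * |(y : ℝ)| + 1 := by
      have h2 : |Tm (3 : ℕ) 1 y| ≤ 2 * |y| + 1 := by
        unfold Tm
        rw [abs_le]
        push_cast
        rcases le_or_gt 0 y with h | h
        · rw [abs_of_nonneg h]
          split_ifs <;> constructor <;> omega
        · rw [abs_of_neg h]
          split_ifs <;> constructor <;> omega
      exact_mod_cast h2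
    rw [pow_succ]
    nlinarith

lemma log_le (x : ℤ) (a : ℕ) : Real.logb 2 |(((Tm (3 : ℕ) 1)^[a] x : ℤ) : ℝ)| ≤ a + Real.logb 2 (|(x : ℝ)| + 1) := by
  have hx : (0 : ℝ) < |(x : ℝ)| + 1 := by positivity
  have hlx : 0 ≤ Real.logb 2 (|(x : ℝ)| + 1) :=
    Real.logb_nonneg (by norm_num) (by have := abs_nonneg (x : ℝ); linarith)
  rcases eq_or_ne ((Tm (3 : ℕ) 1)^[a] x) 0 with h0 | h0
  · rw [h0]
    simp only [Int.cast_zero, abs_zero, Real.logb_zero]
    positivity
  · have h1 : (0 : ℝ) < |(((Tm (3 : ℕ) 1)^[a] x : ℤ) : ℝ)| := by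
      have : (((Tm (3 : ℕ) 1)^[a] x : ℤ) : ℝ) ≠ 0 := by exact_mod_cast h0
      positivity
    have h2 := size_le x a
    have h3 : Real.logb 2 |(((Tm (3 : ℕ) 1)^[a] x : ℤ) : ℝ)| ≤ Real.logb 2 (2 ^ a * (|(x : ℝ)| + 1)) :=
      Real.logb_le_logb_of_le (by norm_num) h1 (by linarith)
    rw [Real.logb_mul (by positivity) hx.ne', Real.logb_pow, Real.logb_self_eq_one (by norm_num),
      mul_one] at h3
    exact h3

/-- **Chain theorem**: geometric windows -/
theorem chain (G : ℕ) (ε : ℝ) (hε : 0 < ε) : ∃ A : ℝ, 0 < A ∧ ∀ (x : ℤ) (s : ℝ) (S : Finset ℕ) (N : ℕ),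
    0 ≤ s → Cut (par (3 : ℕ) 1 x) s G 0 N S → Dist x N →
    (N : ℝ) ≤ A * (1 + s + Real.log (|(x : ℝ)| + 1)) * Real.exp (ε * S.card) := by
  set r : ℕ := ⌈Real.log 3 / ε⌉₊ + 1 with hr
  have hl3 : 0 < Real.log 3 := Real.log_pos (by norm_num)
  have hl2 : 0 < Real.log 2 := Real.log_pos (by norm_num)
  have hr0 : (0 : ℝ) < r := by rw [hr]; positivity
  have hrε : Real.log 3 / r ≤ ε := by
    rw [div_le_iff₀ hr0]
    have h1 : Real.log 3 / ε ≤ r := by
      rw [hr]
      push_cast
      have := Nat.le_ceil (Real.log 3 / ε)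
      linarith
    rw [div_le_iff₀ hε] at h1
    linarith
  obtain ⟨δ, hδ, n0, hn0, hw⟩ := window G r
  refine ⟨3 * (2 / Real.log 2 + 1 / δ + n0 + 1), by positivity, ?_⟩
  intro x s S N hs hcut hdist
  set X : ℝ := Real.log (|(x : ℝ)| + 1) with hX
  have hX0 : 0 ≤ X := Real.log_nonneg (by have := abs_nonneg (x : ℝ); linarith)
  set B0 : ℝ := 2 * Real.logb 2 (|(x : ℝ)| + 1) + s / δ + n0 with hB0
  set b : ℕ := ⌈B0⌉₊ with hb
  have hlog : Real.logb 2 (|(x : ℝ)| + 1) = X / Real.log 2 := rfl
  have hlog0 : 0 ≤ Real.logb 2 (|(x : ℝ)| + 1) := by rw [hlog]; positivity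
  have hsδ : 0 ≤ s / δ := by positivity
  have hbB : B0 ≤ b := Nat.le_ceil _
  have hb1 : 1 ≤ b := by
    have h1 : (1 : ℝ) ≤ n0 := by exact_mod_cast hn0
    have h2 : (1 : ℝ) ≤ b := by linarith
    exact_mod_cast h2
  have hbn : n0 ≤ b := by
    have h2 : (n0 : ℝ) ≤ b := by linarith
    exact_mod_cast h2
  have key : ∀ d a : ℕ, N - a ≤ d → a ≤ N → ((N : ℝ) + b) ≤ 3 * (a + b) *
      Real.exp (Real.log 3 * (S.filter fun t => a < t ∧ t < N).card / r) := by
    intro d
    induction d with
    | zero =>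
      intro a hda ha
      have haN : a = N := by omega
      have h1 : (1 : ℝ) ≤ Real.exp (Real.log 3 * (S.filter fun t => a < t ∧ t < N).card / r) :=
        Real.one_le_exp (by positivity)
      rw [haN] at h1 ⊢
      have h2 : (0 : ℝ) ≤ 3 * (N + b) := by positivity
      nlinarith
    | succ d ih =>
      intro a hda ha
      have hexp : (1 : ℝ) ≤ Real.exp (Real.log 3 * (S.filter fun t => a < t ∧ t < N).card / r) :=
        Real.one_le_exp (by positivity)
      rcases Nat.lt_or_ge N (3 * a + b) with h1 | h1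
      · have h2 : (N : ℝ) + b ≤ 3 * (a + b) := by
          have : (N : ℝ) < 3 * a + b := by exact_mod_cast h1
          have h3 : (0 : ℝ) ≤ b := Nat.cast_nonneg b
          linarith
        have h3 : (0 : ℝ) ≤ 3 * (a + b) := by positivity
        nlinarith
      · have hwin := hw x s S N a (2 * a + b) hs hcut (by omega) (by omega) (by
            have h2 := log_le x a
            rw [show ((2 * a + b : ℕ) : ℝ) = 2 * a + b by push_cast; ring]
            linarith) (by
            push_cast
            have h2 : s / δ ≤ 2 * a + b := by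
              have : (0 : ℝ) ≤ a := Nat.cast_nonneg a
              have : (0 : ℝ) ≤ n0 := Nat.cast_nonneg n0
              linarith
            rw [div_le_iff₀ hδ] at h2
            linarith) hdist
        have hih := ih (3 * a + b) (by omega) h1
        have hcard : r + (S.filter fun t => 3 * a + b < t ∧ t < N).card ≤
            (S.filter fun t => a < t ∧ t < N).card := by
          have h2 : Disjoint (S.filter fun t => a < t ∧ t < a + (2 * a + b))
              (S.filter fun t => 3 * a + b < t ∧ t < N) := by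
            rw [Finset.disjoint_left]
            intro t ht ht'
            rw [Finset.mem_filter] at ht ht'
            omega
          have h3 : (S.filter fun t => a < t ∧ t < a + (2 * a + b)) ∪
              (S.filter fun t => 3 * a + b < t ∧ t < N) ⊆ (S.filter fun t => a < t ∧ t < N) := by
            intro t ht
            rw [Finset.mem_union, Finset.mem_filter, Finset.mem_filter] at ht
            rw [Finset.mem_filter]
            rcases ht with ht | ht
            · exact ⟨ht.1, by omega, by omega⟩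
            · exact ⟨ht.1, by omega, by omega⟩
          have h4 := Finset.card_le_card h3
          rw [Finset.card_union_of_disjoint h2] at h4
          omega
        have hcardR : (r : ℝ) + (S.filter fun t => 3 * a + b < t ∧ t < N).card ≤
            (S.filter fun t => a < t ∧ t < N).card := by exact_mod_cast hcard
        have hexp2 : 3 * Real.exp (Real.log 3 * (S.filter fun t => 3 * a + b < t ∧ t < N).card / r) ≤
            Real.exp (Real.log 3 * (S.filter fun t => a < t ∧ t < N).card / r) := by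
          have h2 : (3 : ℝ) = Real.exp (Real.log 3) := (Real.exp_log (by norm_num)).symm
          conv_lhs => rw [h2]
          rw [Real.exp_log (by norm_num : (0 : ℝ) < 3)]
          conv_lhs => rw [h2]
          rw [Real.log_exp, ← Real.exp_add]
          apply Real.exp_le_exp.2
          rw [← sub_nonneg]
          have h3 : Real.log 3 * (S.filter fun t => a < t ∧ t < N).card / r -
              (Real.log 3 + Real.log 3 * (S.filter fun t => 3 * a + b < t ∧ t < N).card / r) =
              Real.log 3 / r * ((S.filter fun t => a < t ∧ t < N).card -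
                (r + (S.filter fun t => 3 * a + b < t ∧ t < N).card)) := by
            field_simp
          rw [h3]
          exact mul_nonneg (by positivity) (by linarith)
        refine hih.trans ?_
        push_cast
        have h5 : (0 : ℝ) ≤ a + b := by positivity
        have h6 := Real.exp_pos (Real.log 3 * (S.filter fun t => 3 * a + b < t ∧ t < N).card / r)
        have h7 : (3 : ℝ) * (3 * a + b + b) ≤ 3 * (3 * (a + b)) := by
          have : (0 : ℝ) ≤ b := Nat.cast_nonneg b
          linarith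
        calc 3 * (3 * (a : ℝ) + b + b) *
              Real.exp (Real.log 3 * (S.filter fun t => 3 * a + b < t ∧ t < N).card / r)
            ≤ 3 * (3 * (a + b)) *
              Real.exp (Real.log 3 * (S.filter fun t => 3 * a + b < t ∧ t < N).card / r) :=
              mul_le_mul_of_nonneg_right h7 h6.le
          _ = 3 * (a + b) *
              (3 * Real.exp (Real.log 3 * (S.filter fun t => 3 * a + b < t ∧ t < N).card / r)) := by ring
          _ ≤ _ := mul_le_mul_of_nonneg_left hexp2 (by positivity)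
  have h0 := key N 0 (by omega) (Nat.zero_le _)
  have hcardle : ((S.filter fun t => 0 < t ∧ t < N).card : ℝ) ≤ S.card := by
    exact_mod_cast Finset.card_filter_le _ _
  have hexple : Real.exp (Real.log 3 * (S.filter fun t => 0 < t ∧ t < N).card / r) ≤
      Real.exp (ε * S.card) := by
    apply Real.exp_le_exp.2
    calc Real.log 3 * (S.filter fun t => 0 < t ∧ t < N).card / r
        = Real.log 3 / r * (S.filter fun t => 0 < t ∧ t < N).card := by ring
      _ ≤ ε * S.card := mul_le_mul hrε hcardle (by positivity) hε.le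
  have hbu : (b : ℝ) ≤ (2 / Real.log 2 + 1 / δ + n0 + 1) * (1 + s + X) := by
    have h1 := (Nat.ceil_lt_add_one (a := B0) (by positivity)).le
    rw [← hb] at h1
    have h2 : B0 = 2 / Real.log 2 * X + 1 / δ * s + n0 := by
      rw [hB0, hlog]
      ring
    rw [h2] at h1
    have c1 : 0 ≤ 2 / Real.log 2 * (1 + s) := by positivity
    have c2 : 0 ≤ 1 / δ * (1 + X) := by positivity
    have c3 : 0 ≤ ((n0 : ℝ) + 1) * (s + X) := by positivity
    nlinarith
  have hb0 : (0 : ℝ) ≤ b := Nat.cast_nonneg b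
  push_cast at h0
  rw [zero_add] at h0
  have hexp0 := Real.exp_pos (ε * S.card)
  calc (N : ℝ) ≤ N + b := by linarith
    _ ≤ 3 * b * Real.exp (Real.log 3 * (S.filter fun t => 0 < t ∧ t < N).card / r) := h0
    _ ≤ 3 * b * Real.exp (ε * S.card) := mul_le_mul_of_nonneg_left hexple (by positivity)
    _ ≤ 3 * ((2 / Real.log 2 + 1 / δ + n0 + 1) * (1 + s + X)) * Real.exp (ε * S.card) := by
        apply mul_le_mul_of_nonneg_right _ hexp0.le
        linarith
    _ = _ := by ring

end Pool.Agent.H77.Lz
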