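import Pool.Agent.H77.Lz.Lin

set_option autoImplicit false

/-!
# Words at a small distance from words with few phrases
-/

namespace Pool.Agent.H77.Lz

open Finset Filter Topology
open Pool.Agent.H547R3.Sub (Dec HasPer Tm par min_size)

/-- the number of the places `j < n` at which the words `v` and `w` differ -/
def errors (v w : ℕ → ℕ) (n : ℕ) : ℕ := ((range n).filter fun j => v j ≠ w j).card

lemma cut_G {w : ℕ → ℕ} {s s' : ℝ} {G G' a b : ℕ} {S : Finset ℕ} (h : Cut w s G a b S) (hs : 0 ≤ s)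
    (hss : s ≤ s') (hG : G ≤ G') : Cut w s' G' a b S :=
  fun u v hu huv hv hno => phr_mono_s (phr_mono hs (h u v hu huv hv hno) hG) hss

/-- an error counts as two cuts -/
lemma cut_err {w v : ℕ → ℕ} {s : ℝ} (hs : 1 ≤ s) {G a b : ℕ} (hG : 1 ≤ G) {S E : Finset ℕ}
    (h : Cut v s G a b S) (hE : ∀ j, a ≤ j → j < b → j ∉ E → w j = v j) :
    Cut w s G a b (S ∪ E ∪ E.image (· + 1)) := by
  intro u t hu hut ht hno
  rcases Nat.lt_or_ge (u + 1) t with h1 | h1
  · have hEno : ∀ j, u ≤ j → j < t → j ∉ E := by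
      intro j hj hj' hjE
      rcases Nat.eq_or_lt_of_le hj with h2 | h2
      · apply hno (j + 1) _ ⟨by omega, by omega⟩
        rw [Finset.mem_union]
        exact Or.inr (Finset.mem_image.2 ⟨j, hjE, rfl⟩)
      · apply hno j _ ⟨h2, hj'⟩
        rw [Finset.mem_union, Finset.mem_union]
        exact Or.inl (Or.inr hjE)
    have h2 : Phr v s G u t := h u t hu hut ht (fun x hx => hno x (by
      rw [Finset.mem_union, Finset.mem_union]
      exact Or.inl (Or.inl hx)))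
    exact phr_shift (w' := w) (d := 0) h2 (fun j hj hj' =>
      hE j (by omega) (by omega) (hEno j hj hj'))
  · have h2 : (t : ℝ) ≤ u + 1 := by exact_mod_cast h1
    exact phr_mono (by linarith) (phr_single ⟨hut, Or.inl (by linarith)⟩) hG

/-- the cuts of a trajectory whose parity word is near a word made of few simple words -/
lemma blocks_err {v w : ℕ → ℕ} {s : ℝ} (hs : 1 ≤ s) {k m n : ℕ} (h : Blocks v s k m 0 n) :
    ∃ S : Finset ℕ, S.card ≤ m + 2 * errors v w n ∧ Cut w s (g k + 1) 0 n S := by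
  obtain ⟨S, hS, hcut⟩ := blocks_cut (by linarith) h
  set E : Finset ℕ := (range n).filter fun j => v j ≠ w j with hE
  refine ⟨S ∪ E ∪ E.image (· + 1), ?_, ?_⟩
  · have h1 := Finset.card_union_le (S ∪ E) (E.image (· + 1))
    have h2 := Finset.card_union_le S E
    have h3 : (E.image (· + 1)).card ≤ E.card := Finset.card_image_le
    have h4 : errors v w n = E.card := rfl
    omega
  · apply cut_err hs (by omega) (cut_G hcut (by linarith) le_rfl (by omega))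
    intro j _ hj hjE
    by_contra hne
    apply hjE
    rw [hE, Finset.mem_filter, Finset.mem_range]
    exact ⟨hj, fun h => hne h.symm⟩

theorem crit_err (k e : ℕ) (η κ : ℝ) (hη : 0 < η) (hκ : 0 < κ) :
    ∃ δ : ℝ, 0 < δ ∧ ∃ n0 : ℕ, ∀ (x : ℤ) (n : ℕ) (v : ℕ → ℕ), n0 ≤ n →
      (1 + η) * Real.logb 2 |(x : ℝ)| ≤ n → errors v (par (3 : ℕ) 1 x) n ≤ e →
      Phr v (δ * n) k 0 n →
      ∃ j q : ℕ, j + q ≤ n ∧ 1 ≤ q ∧ (q : ℝ) ≤ κ * n ∧ (Tm (3 : ℕ) 1)^[j + q] x = (Tm (3 : ℕ) 1)^[j] x := by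
  obtain ⟨δ, hδ, n0, h⟩ := crit ((1 + 2 * e + 1) * (g k + 1)) η κ hη hκ
  refine ⟨δ, hδ, max n0 ⌈1 / δ⌉₊, ?_⟩
  intro x n v hn hx he hph
  have hn0 : n0 ≤ n := (le_max_left _ _).trans hn
  have hn1 : (1 : ℝ) ≤ δ * n := by
    have h1 : 1 / δ ≤ n := (Nat.le_ceil _).trans (by exact_mod_cast (le_max_right _ _).trans hn)
    rw [div_le_iff₀ hδ] at h1
    linarith
  have hb : Blocks v (δ * n) k 1 0 n := by
    refine ⟨fun i => if i = 0 then 0 else n, by simp, by simp, ?_⟩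
    intro i hi
    have : i = 0 := by omega
    subst this
    simp only [if_true]
    rw [if_neg (by omega)]
    exact hph
  obtain ⟨S, hS, hcut⟩ := blocks_err (w := par (3 : ℕ) 1 x) hn1 hb
  have h2 := cut_phr (by linarith) hcut (1 + 2 * e) 0 n le_rfl (Nat.zero_le _) le_rfl
    ((Finset.card_filter_le _ _).trans (hS.trans (by omega)))
  exact h x n hn0 hx h2

theorem chain_err (k : ℕ) (ε : ℝ) (hε : 0 < ε) : ∃ A : ℝ, 0 < A ∧ ∀ (x : ℤ) (s : ℝ) (m n : ℕ)
    (v : ℕ → ℕ), 0 ≤ s → Dist x n → Blocks v s k m 0 n →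
    (n : ℝ) ≤ A * (1 + s + Real.log (|(x : ℝ)| + 1)) *
      Real.exp (ε * (m + errors v (par (3 : ℕ) 1 x) n)) := by
  obtain ⟨A, hA, h⟩ := chain (g k + 1) (ε / 2) (by positivity)
  refine ⟨2 * A, by positivity, ?_⟩
  intro x s m n v hs hd hb
  have hb' : Blocks v (s + 1) k m 0 n := by
    obtain ⟨c, h0, h1, h2⟩ := hb
    exact ⟨c, h0, h1, fun i hi => phr_mono_s (h2 i hi) (by linarith)⟩
  obtain ⟨S, hS, hcut⟩ := blocks_err (w := par (3 : ℕ) 1 x) (by linarith) hb'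
  have h1 := h x (s + 1) S n (by linarith) hcut hd
  clear hcut hb hb' h
  generalize errors v (par (3 : ℕ) 1 x) n = e at hS ⊢
  have h2 : (S.card : ℝ) ≤ m + 2 * e := by exact_mod_cast hS
  have h3 : 0 ≤ Real.log (|(x : ℝ)| + 1) :=
    Real.log_nonneg (by have := abs_nonneg (x : ℝ); linarith)
  have h4 : Real.exp (ε / 2 * S.card) ≤ Real.exp (ε * (m + e)) := by
    apply Real.exp_le_exp.2
    have hm : (0 : ℝ) ≤ m := Nat.cast_nonneg m
    have he : (0 : ℝ) ≤ e := Nat.cast_nonneg _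
    nlinarith
  refine h1.trans (mul_le_mul ?_ h4 (Real.exp_pos _).le (by positivity))
  rw [mul_comm (2 : ℝ) A, mul_assoc]
  apply mul_le_mul_of_nonneg_left _ hA.le
  linarith

theorem linear_err (k : ℕ) (ε : ℝ) (hε : 0 < ε) : ∃ δ A : ℝ, 0 < δ ∧ 0 < A ∧ ∀ (x : ℤ) (s M : ℝ)
    (m n : ℕ) (v : ℕ → ℕ), 0 ≤ s → 2 ≤ M → s ≤ δ * Real.log M →
    (∀ i < n, |(((Tm (3 : ℕ) 1)^[i] x : ℤ) : ℝ)| ≤ M) → Dist x n → Blocks v s k m 0 n →
    (n : ℝ) ≤ (ε * (m + errors v (par (3 : ℕ) 1 x) n) + A) * Real.log M := by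
  have hl2 : 0 < Real.log 2 := Real.log_pos (by norm_num)
  obtain ⟨δ, A, hδ, hA, h⟩ := linear (g k + 1) (ε / 2) (by positivity)
  refine ⟨δ, A + (2 * Real.exp (1 / δ) + 1) / Real.log 2, hδ, by positivity, ?_⟩
  intro x s M m n v hs hM hsM hxM hd hb
  have hL2 : Real.log 2 ≤ Real.log M := Real.log_le_log (by norm_num) hM
  have hL0 : 0 < Real.log M := by linarith
  have hc0 : (0 : ℝ) ≤ (2 * Real.exp (1 / δ) + 1) / Real.log 2 := by positivity
  have hm : (0 : ℝ) ≤ m := Nat.cast_nonneg m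
  rcases lt_or_ge (δ * Real.log M) 1 with hsmall | hbig
  · generalize errors v (par (3 : ℕ) 1 x) n = e
    have he : (0 : ℝ) ≤ e := Nat.cast_nonneg _
    have hεm : 0 ≤ ε * (m + e) := by positivity
    have h1 := dist_card x n M (by linarith) hd hxM
    have h2 : M ≤ Real.exp (1 / δ) := by
      rw [← Real.log_le_iff_le_exp (by linarith), le_div_iff₀ hδ]
      linarith
    have h3 : (2 * Real.exp (1 / δ) + 1) ≤ (2 * Real.exp (1 / δ) + 1) / Real.log 2 * Real.log M := by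
      rw [div_mul_eq_mul_div, le_div_iff₀ hl2]
      exact mul_le_mul_of_nonneg_left hL2 (by positivity)
    calc (n : ℝ) ≤ 2 * M + 1 := h1
      _ ≤ 2 * Real.exp (1 / δ) + 1 := by linarith
      _ ≤ (2 * Real.exp (1 / δ) + 1) / Real.log 2 * Real.log M := h3
      _ ≤ _ := by
          apply mul_le_mul_of_nonneg_right _ hL0.le
          linarith
  · have hb' : Blocks v (max s 1) k m 0 n := by
      obtain ⟨c, h0, h1, h2⟩ := hb
      exact ⟨c, h0, h1, fun i hi => phr_mono_s (h2 i hi) (le_max_left _ _)⟩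
    obtain ⟨S, hS, hcut⟩ := blocks_err (w := par (3 : ℕ) 1 x) (le_max_right _ _) hb'
    have h1 := h x (max s 1) M S n (by positivity) hM (max_le hsM hbig) hxM hcut hd
    clear hcut hb hb' h
    generalize errors v (par (3 : ℕ) 1 x) n = e at hS ⊢
    have he : (0 : ℝ) ≤ e := Nat.cast_nonneg _
    have h2 : (S.card : ℝ) ≤ m + 2 * e := by exact_mod_cast hS
    refine h1.trans (mul_le_mul_of_nonneg_right ?_ hL0.le)
    nlinarith

theorem cycles_err (k : ℕ) (ε : ℝ) (hε : 0 < ε) : ∃ A : ℝ, 0 < A ∧ ∀ (x : ℤ) (s : ℝ) (m p : ℕ)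
    (v : ℕ → ℕ), 0 ≤ s → 1 ≤ p → (Tm (3 : ℕ) 1)^[p] x = x → (∀ j, 1 ≤ j → j < p → (Tm (3 : ℕ) 1)^[j] x ≠ x) →
    Blocks v s k m 0 p →
    (p : ℝ) ≤ A * (s + (1 + Real.log p) ^ 2) *
      Real.exp (ε * (m + errors v (par (3 : ℕ) 1 x) p)) := by
  obtain ⟨A, hA, h⟩ := cycles (g k + 1) (ε / 2) (by positivity)
  refine ⟨2 * A, by positivity, ?_⟩
  intro x s m p v hs hp hper hprim hb
  have hb' : Blocks v (s + 1) k m 0 p := by
    obtain ⟨c, h0, h1, h2⟩ := hb
    exact ⟨c, h0, h1, fun i hi => phr_mono_s (h2 i hi) (by linarith)⟩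
  obtain ⟨S, hS, hcut⟩ := blocks_err (w := par (3 : ℕ) 1 x) (by linarith) hb'
  have h1 := h x (s + 1) S p (by linarith) hp hper hprim hcut
  clear hcut hb hb' h
  generalize errors v (par (3 : ℕ) 1 x) p = e at hS ⊢
  have h2 : (S.card : ℝ) ≤ m + 2 * e := by exact_mod_cast hS
  have hlogp : 0 ≤ Real.log p := Real.log_nonneg (by exact_mod_cast hp)
  have h4 : Real.exp (ε / 2 * S.card) ≤ Real.exp (ε * (m + e)) := by
    apply Real.exp_le_exp.2
    have hm : (0 : ℝ) ≤ m := Nat.cast_nonneg m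
    have he : (0 : ℝ) ≤ e := Nat.cast_nonneg _
    nlinarith
  refine h1.trans (mul_le_mul ?_ h4 (Real.exp_pos _).le (by positivity))
  rw [mul_comm (2 : ℝ) A, mul_assoc]
  apply mul_le_mul_of_nonneg_left _ hA.le
  nlinarith

end Pool.Agent.H77.Lz
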