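import Pool.Agent.H77.Lz.Chain

set_option autoImplicit false

/-!
# Slowly growing trajectories, and cycles
-/

namespace Pool.Agent.H77.Lz

open Finset Filter Topology
open Pool.Agent.H547R3.Sub (Dec HasPer Tm par min_size)

/-- pairwise different integers of size at most `M` -/
lemma dist_card (x : ℤ) (N : ℕ) (M : ℝ) (hM : 0 ≤ M) (hd : Dist x N)
    (hx : ∀ i < N, |(((Tm (3 : ℕ) 1)^[i] x : ℤ) : ℝ)| ≤ M) : (N : ℝ) ≤ 2 * M + 1 := by
  have h1 : (range N).card ≤ (Finset.Icc (-⌊M⌋) ⌊M⌋).card := by
    apply Finset.card_le_card_of_injOn (fun i => (Tm (3 : ℕ) 1)^[i] x)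
    · intro i hi
      have hi' : i < N := by simpa using hi
      have h2 := hx i hi'
      have h3 : |(Tm (3 : ℕ) 1)^[i] x| ≤ ⌊M⌋ := by
        rw [Int.le_floor]
        exact_mod_cast h2
      simp only [Finset.coe_Icc, Set.mem_Icc]
      exact abs_le.1 h3
    · intro i hi j hj hij
      have hi' : i < N := by simpa using hi
      have hj' : j < N := by simpa using hj
      rcases lt_trichotomy i j with h | h | h
      · exact absurd hij (hd i j h hj'.le)
      · exact h
      · exact absurd hij.symm (hd j i h hi'.le)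
  rw [Finset.card_range, Int.card_Icc] at h1
  have h0 : 0 ≤ ⌊M⌋ := Int.floor_nonneg.2 hM
  have h2 : (N : ℤ) ≤ 2 * ⌊M⌋ + 1 := by
    have : ((⌊M⌋ + 1 - -⌊M⌋).toNat : ℤ) = 2 * ⌊M⌋ + 1 := by
      rw [Int.toNat_of_nonneg (by omega)]
      ring
    omega
  have h3 : ((N : ℤ) : ℝ) ≤ ((2 * ⌊M⌋ + 1 : ℤ) : ℝ) := by exact_mod_cast h2
  push_cast at h3
  have h4 := Int.floor_le M
  linarith

/-- windows of a fixed length -/
theorem linear (G : ℕ) (ε : ℝ) (hε : 0 < ε) : ∃ δ A : ℝ, 0 < δ ∧ 0 < A ∧ ∀ (x : ℤ) (s M : ℝ)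
    (S : Finset ℕ) (N : ℕ), 0 ≤ s → 2 ≤ M → s ≤ δ * Real.log M →
    (∀ i < N, |(((Tm (3 : ℕ) 1)^[i] x : ℤ) : ℝ)| ≤ M) → Cut (par (3 : ℕ) 1 x) s G 0 N S → Dist x N →
    (N : ℝ) ≤ (ε * S.card + A) * Real.log M := by
  have hl2 : 0 < Real.log 2 := Real.log_pos (by norm_num)
  have hl2' : Real.log 2 < 0.6931471808 := Real.log_two_lt_d9
  have hl2'' : 0.6931471803 < Real.log 2 := Real.log_two_gt_d9
  set r : ℕ := ⌈4 / ε⌉₊ + 1 with hr
  have hr0 : (0 : ℝ) < r := by rw [hr]; positivity
  have hrε : 4 / ε ≤ r := by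
    rw [hr]
    push_cast
    have := Nat.le_ceil (4 / ε)
    linarith
  rw [div_le_iff₀ hε] at hrε
  obtain ⟨δ, hδ, n0, hn0, hw⟩ := window G r
  refine ⟨δ, 4 + (2 * Real.exp (1 + n0) + 1) / Real.log 2, hδ, by positivity, ?_⟩
  intro x s M S N hs hM hsM hxM hcut hd
  set L : ℝ := Real.log M with hL
  have hL2 : Real.log 2 ≤ L := Real.log_le_log (by norm_num) hM
  have hL0 : 0 < L := by linarith
  have hc0 : (0 : ℝ) ≤ (2 * Real.exp (1 + n0) + 1) / Real.log 2 := by positivity
  have hεS : 0 ≤ ε * S.card := by positivity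
  rcases lt_or_ge L (1 + n0) with hsmall | hbig
  · -- bounded `M`
    have h1 := dist_card x N M (by linarith) hd hxM
    have h2 : M ≤ Real.exp (1 + n0) := by
      rw [← Real.log_le_iff_le_exp (by linarith)]
      exact hsmall.le
    have h3 : (2 * Real.exp (1 + n0) + 1) ≤ (2 * Real.exp (1 + n0) + 1) / Real.log 2 * L := by
      rw [div_mul_eq_mul_div, le_div_iff₀ hl2]
      exact mul_le_mul_of_nonneg_left hL2 (by positivity)
    calc (N : ℝ) ≤ 2 * M + 1 := h1
      _ ≤ 2 * Real.exp (1 + n0) + 1 := by linarith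
      _ ≤ (2 * Real.exp (1 + n0) + 1) / Real.log 2 * L := h3
      _ ≤ (ε * S.card + (4 + (2 * Real.exp (1 + n0) + 1) / Real.log 2)) * L := by
          apply mul_le_mul_of_nonneg_right _ hL0.le
          linarith
  · set l : ℕ := ⌈2 * Real.logb 2 M⌉₊ + n0 with hl
    have hlogb : Real.logb 2 M = L / Real.log 2 := rfl
    have hl1 : 2 * Real.logb 2 M ≤ l := by
      rw [hl]
      push_cast
      have := Nat.le_ceil (2 * Real.logb 2 M)
      have h0 : (0 : ℝ) ≤ n0 := Nat.cast_nonneg _
      linarith
    have hLl : L ≤ l := by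
      refine le_trans ?_ hl1
      rw [hlogb, ← mul_div_assoc, le_div_iff₀ hl2]
      nlinarith
    have hlu : (l : ℝ) ≤ 4 * L := by
      have h1 := (Nat.ceil_lt_add_one (a := 2 * Real.logb 2 M) (by rw [hlogb]; positivity)).le
      have h2 : 2 * Real.logb 2 M ≤ 2.9 * L := by
        rw [hlogb, ← mul_div_assoc, div_le_iff₀ hl2]
        nlinarith
      rw [hl]
      push_cast
      linarith
    have hxl : ∀ a < N, 2 * Real.logb 2 |(((Tm (3 : ℕ) 1)^[a] x : ℤ) : ℝ)| ≤ l := by
      intro a ha
      rcases eq_or_ne ((Tm (3 : ℕ) 1)^[a] x) 0 with h0 | h0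
      · rw [h0]
        simp only [Int.cast_zero, abs_zero, Real.logb_zero, mul_zero]
        positivity
      · have h1 : (0 : ℝ) < |(((Tm (3 : ℕ) 1)^[a] x : ℤ) : ℝ)| := by
          have : (((Tm (3 : ℕ) 1)^[a] x : ℤ) : ℝ) ≠ 0 := by exact_mod_cast h0
          positivity
        have h2 := Real.logb_le_logb_of_le (b := 2) (by norm_num) h1 (hxM a ha)
        linarith
    have key : ∀ d a : ℕ, N - a ≤ d → a ≤ N →
        (N - a) * r ≤ ((S.filter fun t => a < t ∧ t < N).card + r) * l := by
      intro d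
      induction d with
      | zero =>
        intro a hda ha
        have : N - a = 0 := by omega
        rw [this, zero_mul]
        exact Nat.zero_le _
      | succ d ih =>
        intro a hda ha
        rcases Nat.lt_or_ge N (a + l) with h1 | h1
        · calc (N - a) * r ≤ l * r := Nat.mul_le_mul_right _ (by omega)
            _ = r * l := mul_comm _ _
            _ ≤ ((S.filter fun t => a < t ∧ t < N).card + r) * l := Nat.mul_le_mul_right _ (by omega)
        · have hl1' : 1 ≤ l := by omega
          have hwin := hw x s S N a l hs hcut h1 (by omega) (hxl a (by omega)) (by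
            refine hsM.trans (mul_le_mul_of_nonneg_left hLl hδ.le)) hd
          have hih := ih (a + l) (by omega) h1
          have hcard : r + (S.filter fun t => a + l < t ∧ t < N).card ≤
              (S.filter fun t => a < t ∧ t < N).card := by
            have h2 : Disjoint (S.filter fun t => a < t ∧ t < a + l)
                (S.filter fun t => a + l < t ∧ t < N) := by
              rw [Finset.disjoint_left]
              intro t ht ht'
              rw [Finset.mem_filter] at ht ht'
              omega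
            have h3 : (S.filter fun t => a < t ∧ t < a + l) ∪
                (S.filter fun t => a + l < t ∧ t < N) ⊆ (S.filter fun t => a < t ∧ t < N) := by
              intro t ht
              rw [Finset.mem_union, Finset.mem_filter, Finset.mem_filter] at ht
              rw [Finset.mem_filter]
              rcases ht with ht | ht
              · exact ⟨ht.1, by omega, by omega⟩
              · exact ⟨ht.1, by omega, by omega⟩
            have h4 := Finset.card_le_card h3
            rw [Finset.card_union_of_disjoint h2] at h4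
            omega
          calc (N - a) * r = (N - (a + l)) * r + l * r := by
                rw [← add_mul]
                congr 1
                omega
            _ ≤ ((S.filter fun t => a + l < t ∧ t < N).card + r) * l + l * r :=
                Nat.add_le_add_right hih _
            _ = (r + (S.filter fun t => a + l < t ∧ t < N).card + r) * l := by ring
            _ ≤ ((S.filter fun t => a < t ∧ t < N).card + r) * l :=
                Nat.mul_le_mul_right _ (by omega)
    have h0 := key N 0 (by omega) (Nat.zero_le _)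
    rw [Nat.sub_zero] at h0
    have hcardle : ((S.filter fun t => 0 < t ∧ t < N).card : ℝ) ≤ S.card := by
      exact_mod_cast Finset.card_filter_le _ _
    have h1 : (N : ℝ) * r ≤ ((S.filter fun t => 0 < t ∧ t < N).card + r) * l := by exact_mod_cast h0
    have h2 : (N : ℝ) * r ≤ (S.card + r) * (4 * L) := by
      refine h1.trans ?_
      apply mul_le_mul (by linarith) hlu (Nat.cast_nonneg _) (by positivity)
    have h3 : (S.card : ℝ) * 4 ≤ ε * S.card * r := by
      have h4 : (0 : ℝ) ≤ S.card := Nat.cast_nonneg _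
      nlinarith
    have h4 : (N : ℝ) * r ≤ (ε * S.card + 4) * L * r := by
      have h5 : (S.card + r) * (4 * L) = (S.card * 4 + 4 * r) * L := by ring
      rw [h5] at h2
      have h6 : ((S.card : ℝ) * 4 + 4 * r) * L ≤ (ε * S.card * r + 4 * r) * L :=
        mul_le_mul_of_nonneg_right (by linarith) hL0.le
      calc (N : ℝ) * r ≤ _ := h2
        _ ≤ _ := h6
        _ = _ := by ring
    have h5 : (N : ℝ) ≤ (ε * S.card + 4) * L := le_of_mul_le_mul_right h4 hr0
    refine h5.trans (mul_le_mul_of_nonneg_right ?_ hL0.le)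
    linarith

/-- the terms of a cycle of exact length `p` -/
lemma cycle_dist (x : ℤ) (p : ℕ) (hper : (Tm (3 : ℕ) 1)^[p] x = x)
    (hprim : ∀ j, 1 ≤ j → j < p → (Tm (3 : ℕ) 1)^[j] x ≠ x) (a : ℕ) :
    Dist ((Tm (3 : ℕ) 1)^[a] x) (p - 1) := by
  intro i j hij hj h
  rw [← Function.iterate_add_apply, ← Function.iterate_add_apply] at h
  have hp : 0 < p := by omega
  -- move forward to a multiple of `p`
  have hmul : ∀ m : ℕ, (Tm (3 : ℕ) 1)^[m * p] x = x := by
    intro m
    induction m with
    | zero => simp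
    | succ m ih => rw [add_mul, one_mul, Function.iterate_add_apply, hper, ih]
  set t : ℕ := (i + a) * p - (i + a) with ht
  have hge : i + a ≤ (i + a) * p := Nat.le_mul_of_pos_right _ hp
  have h1 : (Tm (3 : ℕ) 1)^[t + (i + a)] x = x := by
    rw [ht, Nat.sub_add_cancel hge]
    exact hmul (i + a)
  have h2 : (Tm (3 : ℕ) 1)^[t + (j + a)] x = x := by
    rw [Function.iterate_add_apply, ← h, ← Function.iterate_add_apply]
    exact h1
  have h3 : (Tm (3 : ℕ) 1)^[(j - i) + (t + (i + a))] x = x := by
    rw [show (j - i) + (t + (i + a)) = t + (j + a) by omega]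
    exact h2
  rw [Function.iterate_add_apply, h1] at h3
  exact hprim (j - i) (by omega) (by omega) h3

/-- the parity word of a cycle -/
theorem cycles (G : ℕ) (ε : ℝ) (hε : 0 < ε) : ∃ A : ℝ, 0 < A ∧ ∀ (x : ℤ) (s : ℝ) (S : Finset ℕ) (p : ℕ),
    0 ≤ s → 1 ≤ p → (Tm (3 : ℕ) 1)^[p] x = x → (∀ j, 1 ≤ j → j < p → (Tm (3 : ℕ) 1)^[j] x ≠ x) →
    Cut (par (3 : ℕ) 1 x) s G 0 p S →
    (p : ℝ) ≤ A * (s + (1 + Real.log p) ^ 2) * Real.exp (ε * S.card) := by
  classical
  obtain ⟨B, hB, hmin⟩ := min_size Nat.prime_three (by norm_num)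
  obtain ⟨A, hA, hch⟩ := chain G ε hε
  refine ⟨(A * (1 + B) + 1) * Real.exp ε, by positivity, ?_⟩
  intro x s S p hs hp hper hprim hcut
  obtain ⟨i0, hi0, hi0'⟩ := hmin 1 (by norm_num) x p hp hper
  set y := (Tm (3 : ℕ) 1)^[i0] x with hy
  have hparp : ∀ j, par (3 : ℕ) 1 x (j + p) = par (3 : ℕ) 1 x j := by
    intro j
    unfold par
    rw [Function.iterate_add_apply, hper]
  set S' : Finset ℕ := ((S.filter fun t => i0 < t).image fun t => t - i0) ∪
    ((S.filter fun t => ¬ i0 < t).image fun t => t + (p - i0)) ∪ {p - i0} with hS'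
  have hS'card : S'.card ≤ S.card + 1 := by
    have h1 := Finset.card_union_le (((S.filter fun t => i0 < t).image fun t => t - i0) ∪
      ((S.filter fun t => ¬ i0 < t).image fun t => t + (p - i0))) {p - i0}
    have h2 := Finset.card_union_le ((S.filter fun t => i0 < t).image fun t => t - i0)
      ((S.filter fun t => ¬ i0 < t).image fun t => t + (p - i0))
    have h3 : ((S.filter fun t => i0 < t).image fun t => t - i0).card ≤
      (S.filter fun t => i0 < t).card := Finset.card_image_le
    have h4 : ((S.filter fun t => ¬ i0 < t).image fun t => t + (p - i0)).card ≤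
      (S.filter fun t => ¬ i0 < t).card := Finset.card_image_le
    have h5 := Finset.card_filter_add_card_filter_not (s := S) (fun t => i0 < t)
    rw [Finset.card_singleton] at h1
    rw [hS']
    omega
  have hcut' : Cut (par (3 : ℕ) 1 y) s G 0 (p - 1) S' := by
    intro u v _ huv hv hno
    have hnp : ¬ (u < p - i0 ∧ p - i0 < v) := hno _ (by simp [hS'])
    rcases Nat.lt_or_ge (p - i0) v with h | h
    · -- the second part
      have hu : p - i0 ≤ u := by
        by_contra hcon
        exact hnp ⟨by omega, h⟩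
      have h1 : Phr (par (3 : ℕ) 1 x) s G (u - (p - i0)) (v - (p - i0)) := by
        apply hcut _ _ (Nat.zero_le _) (by omega) (by omega)
        intro t ht htt
        apply hno (t + (p - i0)) _ ⟨by omega, by omega⟩
        rw [hS', Finset.mem_union, Finset.mem_union]
        exact Or.inl (Or.inr (Finset.mem_image.2 ⟨t, Finset.mem_filter.2 ⟨ht, by omega⟩, rfl⟩))
      have h2 := phr_shift (w' := par (3 : ℕ) 1 y) (d := p - i0) h1 (fun j _ _ => by
        rw [hy, par_shift, show j + (p - i0) + i0 = j + p by omega, hparp])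
      rwa [Nat.sub_add_cancel hu, Nat.sub_add_cancel h.le] at h2
    · have h1 : Phr (par (3 : ℕ) 1 x) s G (u + i0) (v + i0) := by
        apply hcut _ _ (Nat.zero_le _) (by omega) (by omega)
        intro t ht htt
        apply hno (t - i0) _ ⟨by omega, by omega⟩
        rw [hS', Finset.mem_union, Finset.mem_union]
        exact Or.inl (Or.inl (Finset.mem_image.2 ⟨t, Finset.mem_filter.2 ⟨ht, by omega⟩, rfl⟩))
      exact phr_unshift h1 (fun j _ _ => by rw [hy, par_shift])
  have h1 := hch y s S' (p - 1) hs hcut' (cycle_dist x p hper hprim i0)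
  have hpR : (1 : ℝ) ≤ p := by exact_mod_cast hp
  have hlogp : 0 ≤ Real.log p := Real.log_nonneg hpR
  rw [Nat.cast_sub hp] at h1
  have h2 : Real.log (|((y : ℤ) : ℝ)| + 1) ≤ B * (1 + Real.log p) ^ 2 := by
    have h3 := hi0'
    simp only [Int.cast_one, abs_one, Real.log_one, zero_add] at h3
    exact h3
  have h3 : Real.exp (ε * S'.card) ≤ Real.exp ε * Real.exp (ε * S.card) := by
    rw [← Real.exp_add]
    apply Real.exp_le_exp.2
    have h4 : (S'.card : ℝ) ≤ S.card + 1 := by exact_mod_cast hS'card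
    nlinarith
  have h4 : 1 ≤ (1 + Real.log p) ^ 2 := by nlinarith
  have h5 : 1 + s + Real.log (|((y : ℤ) : ℝ)| + 1) ≤ (1 + B) * (s + (1 + Real.log p) ^ 2) := by
    nlinarith
  have h6 : 1 ≤ Real.exp ε * Real.exp (ε * S.card) := by
    rw [← Real.exp_add]
    exact Real.one_le_exp (by positivity)
  have h7 : 0 ≤ s + (1 + Real.log p) ^ 2 := by positivity
  have h8 : (p : ℝ) - 1 ≤ A * ((1 + B) * (s + (1 + Real.log p) ^ 2)) *
      (Real.exp ε * Real.exp (ε * S.card)) := by
    push_cast at h1
    refine h1.trans ?_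
    have h9 : 0 ≤ 1 + s + Real.log (|((y : ℤ) : ℝ)| + 1) := by
      have : 0 ≤ Real.log (|((y : ℤ) : ℝ)| + 1) :=
        Real.log_nonneg (by have := abs_nonneg ((y : ℤ) : ℝ); linarith)
      linarith
    exact mul_le_mul (mul_le_mul_of_nonneg_left h5 hA.le) h3 (Real.exp_pos _).le (by positivity)
  have h9 : 1 ≤ (s + (1 + Real.log p) ^ 2) * (Real.exp ε * Real.exp (ε * S.card)) := by
    have h10 : 1 ≤ s + (1 + Real.log p) ^ 2 := by linarith
    nlinarith
  calc (p : ℝ) = (p - 1) + 1 := by ring
    _ ≤ A * ((1 + B) * (s + (1 + Real.log p) ^ 2)) * (Real.exp ε * Real.exp (ε * S.card)) +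
        (s + (1 + Real.log p) ^ 2) * (Real.exp ε * Real.exp (ε * S.card)) := add_le_add h8 h9
    _ = _ := by ring

end Pool.Agent.H77.Lz
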