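import Pool.Agent.H77.Lz.Red

set_option autoImplicit false

/-!
# Factors of words with few Lempel–Ziv phrases
-/

namespace Pool.Agent.H77.Lz

open Finset Filter Topology
open Pool.Agent.H547R3.Sub (Dec HasPer Tm par)

lemma phrase_base {w : ℕ → ℕ} {s : ℝ} {a a' u v : ℕ} (h : Phrase w s a u v) (ha : a' ≤ a) :
    Phrase w s a' u v := by
  refine ⟨h.1, h.2.imp_right ?_⟩
  rintro ⟨p, hp1, hp0, hp⟩
  exact ⟨p, hp1, by omega, hp⟩

lemma phr_mono_s {w : ℕ → ℕ} {s s' : ℝ} {k a b : ℕ} (h : Phr w s k a b) (hs : s ≤ s') :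
    Phr w s' k a b := by
  obtain ⟨c, h0, h1, h2⟩ := h
  exact ⟨c, h0, h1, fun i hi => phrase_mono (h2 i hi) hs⟩

lemma phr_le {w : ℕ → ℕ} {s : ℝ} {k a b : ℕ} (h : Phr w s k a b) : a ≤ b := by
  obtain ⟨c, h0, h1, h2⟩ := h
  have := mono_le (fun i hi => (h2 i hi).1) k le_rfl 0 (Nat.zero_le _)
  rwa [h0, h1] at this

lemma phr_concat {w : ℕ → ℕ} {s : ℝ} {k k' a b c : ℕ} (h : Phr w s k a b) (h' : Phr w s k' b c) :
    Phr w s (k + k') a c := by
  have hab := phr_le h
  obtain ⟨d, h0, h1, h2⟩ := h
  obtain ⟨d', h0', h1', h2'⟩ := h'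
  have hd : d k = d' 0 := by rw [h1, h0']
  refine ⟨cat k d d', by rw [cat_zero, h0], ?_, ?_⟩
  · rw [(cat_ge hd (Nat.le_add_right k k')).1, Nat.add_sub_cancel_left, h1']
  · intro i hi
    rcases lt_or_ge i k with h | h
    · rw [(cat_lt h).1, (cat_lt h).2]
      exact h2 i h
    · rw [(cat_ge hd h).1, (cat_ge hd h).2]
      exact phrase_base (h2' _ (by omega)) hab

lemma phr_single {w : ℕ → ℕ} {s : ℝ} {a b : ℕ} (h : Phrase w s a a b) : Phr w s 1 a b := by
  refine ⟨fun i => if i = 0 then a else b, by simp, by simp, ?_⟩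
  intro i hi
  have : i = 0 := by omega
  subst this
  simp only [if_true]
  rw [if_neg (by omega)]
  exact h

lemma phr_zero {w : ℕ → ℕ} {s : ℝ} (a : ℕ) : Phr w s 0 a a :=
  ⟨fun _ => a, rfl, rfl, fun i hi => absurd hi (by omega)⟩

/-- one more phrase -/
lemma phr_snoc {w : ℕ → ℕ} {s : ℝ} {k a b c : ℕ} (h : Phr w s k a b) (h' : Phrase w s a b c) :
    Phr w s (k + 1) a c := by
  obtain ⟨d, h0, h1, h2⟩ := h
  refine ⟨fun i => if i ≤ k then d i else c, by simp [h0], by simp, ?_⟩
  intro i hi
  rcases Nat.lt_or_ge i k with h3 | h3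
  · simp only []
    rw [if_pos h3.le, if_pos (by omega)]
    exact h2 i h3
  · have : i = k := by omega
    subst this
    simp only [le_refl, if_true]
    rw [if_neg (by omega), h1]
    exact h'

lemma phrase_empty {w : ℕ → ℕ} {s : ℝ} (hs : 0 ≤ s) (a u : ℕ) : Phrase w s a u u :=
  ⟨le_rfl, Or.inl (by linarith)⟩

lemma phr_mono {w : ℕ → ℕ} {s : ℝ} (hs : 0 ≤ s) {k k' a b : ℕ} (h : Phr w s k a b) (hk : k ≤ k') :
    Phr w s k' a b := by
  induction k', hk using Nat.le_induction with
  | base => exact h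
  | succ k' _ ih => exact phr_snoc ih (phrase_empty hs _ _)

lemma phr_shift {w w' : ℕ → ℕ} {s : ℝ} {k a b d : ℕ} (h : Phr w s k a b)
    (hw : ∀ j, a ≤ j → j < b → w' (j + d) = w j) : Phr w' s k (a + d) (b + d) := by
  obtain ⟨c, h0, h1, h2⟩ := h
  have hm := mono_le (fun i hi => (h2 i hi).1)
  refine ⟨fun i => c i + d, by dsimp only; rw [h0], by dsimp only; rw [h1], fun i hi => ?_⟩
  obtain ⟨h3, h4⟩ := h2 i hi
  have h5 := hm i hi.le 0 (Nat.zero_le _)
  have h6 := hm k le_rfl (i + 1) (by omega)
  rw [h0] at h5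
  rw [h1] at h6
  refine ⟨Nat.add_le_add_right h3 d, ?_⟩
  rcases h4 with h4 | ⟨p, hp1, hp0, hp⟩
  · left
    push_cast
    linarith
  · right
    refine ⟨p, hp1, by dsimp only; omega, ?_⟩
    intro j hj hj'
    dsimp only at hj hj'
    obtain ⟨j', rfl⟩ : ∃ j', j = j' + d := ⟨j - d, by omega⟩
    rw [hw j' (by omega) (by omega), show j' + d - p = (j' - p) + d by omega,
      hw (j' - p) (by omega) (by omega)]
    exact hp j' (by omega) (by omega)

lemma phr_unshift {w w' : ℕ → ℕ} {s : ℝ} {k a b d : ℕ} (h : Phr w s k (a + d) (b + d))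
    (hw : ∀ j, a ≤ j → j < b → w' j = w (j + d)) : Phr w' s k a b := by
  obtain ⟨c, h0, h1, h2⟩ := h
  have hm := mono_le (fun i hi => (h2 i hi).1)
  refine ⟨fun i => c i - d, by dsimp only; omega, by dsimp only; omega, fun i hi => ?_⟩
  obtain ⟨h3, h4⟩ := h2 i hi
  have h5 := hm i hi.le 0 (Nat.zero_le _)
  have h6 := hm k le_rfl (i + 1) (by omega)
  rw [h0] at h5
  rw [h1] at h6
  refine ⟨Nat.sub_le_sub_right h3 d, ?_⟩
  rcases h4 with h4 | ⟨p, hp1, hp0, hp⟩
  · left
    rw [Nat.cast_sub (by omega), Nat.cast_sub (by omega)]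
    linarith
  · right
    refine ⟨p, hp1, by dsimp only; omega, ?_⟩
    intro j hj hj'
    dsimp only at hj hj'
    rw [hw j (by omega) (by omega), hw (j - p) (by omega) (by omega),
      show j - p + d = j + d - p by omega]
    exact hp (j + d) (by omega) (by omega)

/-- the number of the phrases of a factor of a word with `k` phrases -/
def g : ℕ → ℕ
  | 0 => 0
  | k + 1 => 3 * g k + 1

/-- a factor of a word with `k` phrases has at most `g k` phrases -/
lemma factor {w : ℕ → ℕ} {s : ℝ} (hs : 0 ≤ s) (k : ℕ) : ∀ a b : ℕ, Phr w s k a b →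
    ∀ u v : ℕ, a ≤ u → u ≤ v → v ≤ b → Phr w s (g k) u v := by
  induction k with
  | zero =>
    intro a b h u v hu huv hv
    obtain ⟨c, h0, h1, _⟩ := h
    have h2 : a = b := by rw [← h0, h1]
    have h3 : u = v := by omega
    rw [h3]
    exact phr_zero v
  | succ k ih =>
    intro a b h u v hu huv hv
    obtain ⟨c, h0, h1, h2⟩ := h
    set b1 := c k with hb1
    have hk : Phr w s k a b1 := ⟨c, h0, rfl, fun i hi => h2 i (by omega)⟩
    have hab1 : a ≤ b1 := phr_le hk
    obtain ⟨h3, h4⟩ := h2 k (by omega)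
    rw [h1] at h3 h4
    have IH : ∀ u v : ℕ, a ≤ u → u ≤ v → v ≤ b1 → Phr w s (g k) u v := ih a b1 hk
    have hg : g (k + 1) = 3 * g k + 1 := rfl
    rcases Nat.lt_or_ge b1 v with hv1 | hv1
    swap
    · exact phr_mono hs (IH u v hu huv hv1) (by omega)
    rcases h4 with h4 | ⟨p, hp1, hp0, hp⟩
    · -- the last phrase is short
      have hvb : (v : ℝ) ≤ b := by exact_mod_cast hv
      rcases Nat.lt_or_ge b1 u with hu1 | hu1
      · have h5 : (b1 : ℝ) ≤ u := by exact_mod_cast hu1.le
        exact phr_mono hs (phr_single ⟨huv, Or.inl (by linarith)⟩) (by omega)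
      · exact phr_mono hs (phr_snoc (IH u b1 hu hu1 le_rfl) ⟨hv1.le, Or.inl (by linarith)⟩) (by omega)
    · -- the last phrase is a copy
      have hw : ∀ j, b1 ≤ j + p → j + p < b → w (j + p) = w j := by
        intro j hj hj'
        rw [hp (j + p) hj hj', Nat.add_sub_cancel]
      have case1 : ∀ u v : ℕ, b1 ≤ u → u ≤ v → v ≤ b → v ≤ b1 + p → Phr w s (g k) u v := by
        intro u v hu huv hv hvp
        have h5 := phr_shift (w' := w) (d := p) (IH (u - p) (v - p) (by omega) (by omega) (by omega))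
          (fun j hj hj' => hw j (by omega) (by omega))
        rcases Nat.lt_or_ge v p with h6 | h6
        · omega
        · rwa [Nat.sub_add_cancel (by omega), Nat.sub_add_cancel h6] at h5
      have sub : ∀ n u v : ℕ, u ≤ n → b1 ≤ u → u ≤ v → v ≤ b → v ≤ u + p →
          Phr w s (2 * g k) u v := by
        intro n
        induction n with
        | zero =>
          intro u v hu0 hu huv hv hvp
          exact phr_mono hs (case1 u v hu huv hv (by omega)) (by omega)
        | succ n ihn =>
          intro u v hun hu huv hv hvp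
          rcases Nat.lt_or_ge (b1 + p) v with h5 | h5
          swap
          · exact phr_mono hs (case1 u v hu huv hv h5) (by omega)
          rcases Nat.lt_or_ge u (b1 + p) with h6 | h6
          · -- split at `b1 + p`
            have h7 := case1 u (b1 + p) hu h6.le (by omega) le_rfl
            have h8 := case1 b1 (v - p) le_rfl (by omega) (by omega) (by omega)
            have h9 := phr_shift (w' := w) (d := p) h8 (fun j hj hj' => hw j (by omega) (by omega))
            rw [Nat.sub_add_cancel (by omega)] at h9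
            rw [two_mul]
            exact phr_concat h7 h9
          · have h7 := ihn (u - p) (v - p) (by omega) (by omega) (by omega) (by omega) (by omega)
            have h8 := phr_shift (w' := w) (d := p) h7 (fun j hj hj' => hw j (by omega) (by omega))
            rwa [Nat.sub_add_cancel (by omega), Nat.sub_add_cancel (by omega)] at h8
      have long : ∀ u : ℕ, b1 ≤ u → u ≤ v → Phr w s (2 * g k + 1) u v := by
        intro u hu huv
        rcases Nat.lt_or_ge (u + p) v with h5 | h5
        · refine phr_snoc (sub u u (u + p) le_rfl hu (by omega) (by omega) le_rfl) ⟨h5.le, Or.inr ?_⟩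
          exact ⟨p, hp1, le_rfl, fun j hj hj' => hp j (by omega) (by omega)⟩
        · exact phr_mono hs (sub u u v le_rfl hu huv hv h5) (by omega)
      rcases Nat.lt_or_ge b1 u with hu1 | hu1
      · exact phr_mono hs (long u hu1.le huv) (by omega)
      · have h5 := phr_concat (IH u b1 hu hu1 le_rfl) (long b1 le_rfl hv1.le)
        exact phr_mono hs h5 (by omega)

/-- every interval of `[a, b)` with no point of `S` in its interior is made of `G` phrases -/
def Cut (w : ℕ → ℕ) (s : ℝ) (G a b : ℕ) (S : Finset ℕ) : Prop :=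
  ∀ u v, a ≤ u → u ≤ v → v ≤ b → (∀ t ∈ S, ¬ (u < t ∧ t < v)) → Phr w s G u v

lemma cut_phr {w : ℕ → ℕ} {s : ℝ} (hs : 0 ≤ s) {G a b : ℕ} {S : Finset ℕ} (h : Cut w s G a b S) (r : ℕ) :
    ∀ u v : ℕ, a ≤ u → u ≤ v → v ≤ b → (S.filter fun t => u < t ∧ t < v).card ≤ r →
      Phr w s ((r + 1) * G) u v := by
  induction r with
  | zero =>
    intro u v hu huv hv hr
    rw [zero_add, one_mul]
    apply h u v hu huv hv
    intro t ht htt
    have h1 : t ∈ S.filter fun t => u < t ∧ t < v := Finset.mem_filter.2 ⟨ht, htt⟩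
    have h2 := Finset.card_pos.2 ⟨t, h1⟩
    omega
  | succ r ih =>
    intro u v hu huv hv hr
    by_cases hne : (S.filter fun t => u < t ∧ t < v).Nonempty
    · set t := (S.filter fun t => u < t ∧ t < v).min' hne with ht
      have htm : t ∈ S.filter fun t => u < t ∧ t < v := Finset.min'_mem _ _
      obtain ⟨htS, hut, htv⟩ := Finset.mem_filter.1 htm
      have h1 : Phr w s G u t := by
        apply h u t hu hut.le (by omega)
        intro t' ht' htt'
        have h2 : t ≤ t' := Finset.min'_le _ _ (Finset.mem_filter.2 ⟨ht', htt'.1, by omega⟩)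
        omega
      have h2 : (S.filter fun t' => t < t' ∧ t' < v).card ≤ r := by
        have h3 : (S.filter fun t' => t < t' ∧ t' < v) ⊆ (S.filter fun t => u < t ∧ t < v).erase t := by
          intro t' ht'
          rw [Finset.mem_filter] at ht'
          rw [Finset.mem_erase, Finset.mem_filter]
          exact ⟨by omega, ht'.1, by omega, by omega⟩
        have h4 := Finset.card_le_card h3
        rw [Finset.card_erase_of_mem htm] at h4
        omega
      have h3 := phr_concat h1 (ih t v (by omega) htv.le hv h2)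
      have h4 : (r + 1 + 1) * G = G + (r + 1) * G := by ring
      rw [h4]
      exact h3
    · rw [Finset.not_nonempty_iff_eq_empty] at hne
      have h1 : Phr w s G u v := by
        apply h u v hu huv hv
        intro t ht htt
        have h1 : t ∈ S.filter fun t => u < t ∧ t < v := Finset.mem_filter.2 ⟨ht, htt⟩
        rw [hne] at h1
        simp at h1
      exact phr_mono hs h1 (by nlinarith)

/-- the letters `a, …, b - 1` of `w` are the concatenation of `m` words, each of which is the
concatenation of at most `k` phrases -/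
def Blocks (w : ℕ → ℕ) (s : ℝ) (k m a b : ℕ) : Prop :=
  ∃ c : ℕ → ℕ, c 0 = a ∧ c m = b ∧ ∀ i < m, Phr w s k (c i) (c (i + 1))

lemma blocks_cut {w : ℕ → ℕ} {s : ℝ} (hs : 0 ≤ s) {k m a b : ℕ} (h : Blocks w s k m a b) :
    ∃ S : Finset ℕ, S.card ≤ m ∧ Cut w s (g k) a b S := by
  obtain ⟨c, h0, h1, h2⟩ := h
  refine ⟨(range m).image c, Finset.card_image_le.trans (by simp), ?_⟩
  intro u v hu huv hv hno
  rcases Nat.eq_or_lt_of_le huv with heq | hlt
  · rw [heq]
    exact phr_mono hs (phr_zero v) (Nat.zero_le _)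
  -- the block which contains `u`
  have hex : ∃ i, i < m ∧ c i ≤ u ∧ u < c (i + 1) := by
    by_contra hcon
    push Not at hcon
    have h3 : ∀ i ≤ m, c i ≤ u := by
      intro i
      induction i with
      | zero => intro _; rw [h0]; exact hu
      | succ i ih => intro hi; exact hcon i (by omega) (ih (by omega))
    have h4 := h3 m le_rfl
    rw [h1] at h4
    omega
  obtain ⟨i, him, hcu, huc⟩ := hex
  have hvc : v ≤ c (i + 1) := by
    rcases Nat.eq_or_lt_of_le (Nat.succ_le_of_lt him) with h3 | h3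
    · rw [show i + 1 = m from h3, h1]
      exact hv
    · by_contra h4
      push Not at h4
      exact hno (c (i + 1)) (Finset.mem_image.2 ⟨i + 1, Finset.mem_range.2 h3, rfl⟩) ⟨huc, h4⟩
  exact factor hs k _ _ (h2 i him) u v hcu huv hvc

end Pool.Agent.H77.Lz
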