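import Mathlib
import Pool.Graph.R_seed8.H547R3.Sub.Tqk2

set_option autoImplicit false

/-!
# Words with few Lempel–Ziv phrases are made of few periodic pieces

A word is cut into phrases, each of which has at most `s` letters or is a copy of an earlier part of
the word (the copy may overlap itself). A copy with a short shift is a periodic piece. A copy with a
long shift is made of a bounded number of copies which do not overlap themselves, and it multiplies
the number of the pieces by a bounded factor.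
-/

namespace Pool.Agent.H77.Lz

open Finset Filter Topology
open Pool.Agent.H547R3.Sub (Dec HasPer Tm par)

/-- one phrase of a word which begins at `a`: at most `s` letters, or a copy of an earlier part -/
def Phrase (w : ℕ → ℕ) (s : ℝ) (a u v : ℕ) : Prop :=
  u ≤ v ∧ ((v : ℝ) ≤ u + s ∨ ∃ p, 1 ≤ p ∧ a + p ≤ u ∧ ∀ j, u ≤ j → j < v → w j = w (j - p))

/-- the letters `a, …, b - 1` of `w` are the concatenation of `k` phrases -/
def Phr (w : ℕ → ℕ) (s : ℝ) (k a b : ℕ) : Prop :=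
  ∃ c : ℕ → ℕ, c 0 = a ∧ c k = b ∧ ∀ i < k, Phrase w s a (c i) (c (i + 1))

/-- concatenation of functions -/
def cat (k : ℕ) (c c' : ℕ → ℕ) : ℕ → ℕ := fun i => if i ≤ k then c i else c' (i - k)

lemma cat_zero (k : ℕ) (c c' : ℕ → ℕ) : cat k c c' 0 = c 0 := by simp [cat]

lemma cat_lt {k : ℕ} {c c' : ℕ → ℕ} {i : ℕ} (hi : i < k) :
    cat k c c' i = c i ∧ cat k c c' (i + 1) = c (i + 1) := by
  constructor
  · simp [cat, hi.le]
  · simp only [cat]
    rw [if_pos (by omega)]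

lemma cat_ge {k : ℕ} {c c' : ℕ → ℕ} (h : c k = c' 0) {i : ℕ} (hi : k ≤ i) :
    cat k c c' i = c' (i - k) ∧ cat k c c' (i + 1) = c' (i - k + 1) := by
  constructor
  · simp only [cat]
    split_ifs with h'
    · have : i = k := le_antisymm h' hi
      rw [this, h, Nat.sub_self]
    · rfl
  · simp only [cat]
    rw [if_neg (by omega)]
    congr 1
    omega

lemma dec_mono {w : ℕ → ℕ} {P P' k a b : ℕ} (h : Dec w P k a b) (hP : P ≤ P') : Dec w P' k a b := by
  obtain ⟨c, h0, h1, h2, h3⟩ := h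
  refine ⟨c, h0, h1, h2, fun i hi => ?_⟩
  obtain ⟨q, hq1, hqP, hq⟩ := h3 i hi
  exact ⟨q, hq1, hqP.trans hP, hq⟩

lemma dec_concat {w : ℕ → ℕ} {P k k' a b c : ℕ} (h : Dec w P k a b) (h' : Dec w P k' b c) :
    Dec w P (k + k') a c := by
  obtain ⟨d, h0, h1, h2, h3⟩ := h
  obtain ⟨d', h0', h1', h2', h3'⟩ := h'
  have hd : d k = d' 0 := by rw [h1, h0']
  refine ⟨cat k d d', by rw [cat_zero, h0], ?_, ?_, ?_⟩
  · rw [(cat_ge hd (Nat.le_add_right k k')).1, Nat.add_sub_cancel_left, h1']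
  · intro i hi
    rcases lt_or_ge i k with h | h
    · rw [(cat_lt h).1, (cat_lt h).2]
      exact h2 i h
    · rw [(cat_ge hd h).1, (cat_ge hd h).2]
      exact h2' _ (by omega)
  · intro i hi
    rcases lt_or_ge i k with h | h
    · rw [(cat_lt h).1, (cat_lt h).2]
      exact h3 i h
    · rw [(cat_ge hd h).1, (cat_ge hd h).2]
      exact h3' _ (by omega)

lemma dec_restrict {w : ℕ → ℕ} {P k a b a' b' : ℕ} (h : Dec w P k a b) (ha : a ≤ a')
    (hab : a' ≤ b') (hb : b' ≤ b) : Dec w P k a' b' := by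
  obtain ⟨c, h0, h1, h2, h3⟩ := h
  refine ⟨fun i => max a' (min (c i) b'), ?_, ?_, ?_, ?_⟩
  · dsimp only
    rw [h0]
    omega
  · dsimp only
    rw [h1]
    omega
  · intro i hi
    exact max_le_max le_rfl (min_le_min_right _ (h2 i hi))
  · intro i hi
    obtain ⟨q, hq1, hqP, hq⟩ := h3 i hi
    refine ⟨q, hq1, hqP, ?_⟩
    intro j hj hj'
    dsimp only at hj hj'
    apply hq j <;> omega

lemma mono_le {c : ℕ → ℕ} {k : ℕ} (h : ∀ i < k, c i ≤ c (i + 1)) : ∀ n ≤ k, ∀ m ≤ n, c m ≤ c n := by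
  intro n
  induction n with
  | zero => intro _ m hm; rw [Nat.le_zero.1 hm]
  | succ n ih =>
    intro hn m hm
    rcases Nat.eq_or_lt_of_le hm with h' | h'
    · rw [h']
    · exact (ih (by omega) m (by omega)).trans (h n (by omega))

lemma dec_shift {w w' : ℕ → ℕ} {P k a b d : ℕ} (h : Dec w P k a b)
    (hw : ∀ j, a ≤ j → j < b → w' (j + d) = w j) : Dec w' P k (a + d) (b + d) := by
  obtain ⟨c, h0, h1, h2, h3⟩ := h
  refine ⟨fun i => c i + d, by dsimp only; rw [h0], by dsimp only; rw [h1],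
    fun i hi => Nat.add_le_add_right (h2 i hi) d, fun i hi => ?_⟩
  obtain ⟨q, hq1, hqP, hq⟩ := h3 i hi
  refine ⟨q, hq1, hqP, ?_⟩
  intro j hj hj'
  dsimp only at hj hj'
  obtain ⟨j', rfl⟩ : ∃ j', j = j' + d := ⟨j - d, by omega⟩
  have h4 := mono_le h2 i hi.le 0 (Nat.zero_le _)
  have h5 := mono_le h2 k le_rfl (i + 1) (by omega)
  rw [h0] at h4
  rw [h1] at h5
  rw [hw j' (by omega) (by omega), show j' + d + q = j' + q + d by ring, hw (j' + q) (by omega) (by omega)]
  exact hq j' (by omega) (by omega)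

lemma dec_single {w : ℕ → ℕ} {P a b q : ℕ} (hab : a ≤ b) (hq : 1 ≤ q) (hqP : q ≤ P)
    (h : HasPer w q a b) : Dec w P 1 a b := by
  refine ⟨fun i => if i = 0 then a else b, by simp, by simp, ?_, ?_⟩
  · intro i hi
    have : i = 0 := by omega
    subst this
    simp only [if_true]
    rw [if_neg (by omega)]
    exact hab
  · intro i hi
    have : i = 0 := by omega
    subst this
    simp only [if_true]
    rw [if_neg (by omega)]
    exact ⟨q, hq, hqP, h⟩

/-- a copy with a long shift multiplies the number of the pieces by a bounded factor -/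
lemma copies {w : ℕ → ℕ} {P K c0 c1 p : ℕ} (hc : c0 ≤ c1) (h : Dec w P K 0 c0) (hp : 1 ≤ p)
    (hpc : p ≤ c0) (hcopy : ∀ j, c0 ≤ j → j < c1 → w j = w (j - p)) (s : ℕ) :
    Dec w P (K * 2 ^ s) 0 (min (c0 + s * p) c1) := by
  induction s with
  | zero =>
    rw [pow_zero, mul_one, zero_mul, add_zero, min_eq_left hc]
    exact h
  | succ s ih =>
    set u := min (c0 + s * p) c1 with hu
    set v := min (c0 + (s + 1) * p) c1 with hv
    have huv : u ≤ v := min_le_min_right _ (by nlinarith)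
    have hvp : v ≤ u + p := by
      rw [hu, hv]
      have : (s + 1) * p = s * p + p := by ring
      omega
    have hu0 : c0 ≤ u := by
      rw [hu]
      apply le_min (by omega) hc
    have hvc : v ≤ c1 := min_le_right _ _
    have h1 : Dec w P (K * 2 ^ s) (u - p) (v - p) := dec_restrict ih (by omega) (by omega) (by omega)
    have h2 : Dec w P (K * 2 ^ s) (u - p + p) (v - p + p) := dec_shift h1 (fun j hj hj' => by
      rw [hcopy (j + p) (by omega) (by omega), Nat.add_sub_cancel])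
    rw [Nat.sub_add_cancel (by omega), Nat.sub_add_cancel (by omega)] at h2
    have h3 := dec_concat ih h2
    rw [pow_succ, mul_two, mul_add]
    exact h3

lemma phrase_mono {w : ℕ → ℕ} {s s' : ℝ} {a u v : ℕ} (h : Phrase w s a u v) (hs : s ≤ s') :
    Phrase w s' a u v := ⟨h.1, h.2.imp_left fun h' => by linarith⟩

/-- integers whose parity word has few phrases, with a first part made of `K` periodic pieces -/
theorem crit_aux (η κ : ℝ) (hη : 0 < η) (hκ : 0 < κ) (k : ℕ) : ∀ K : ℕ,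
    ∃ δ : ℝ, 0 < δ ∧ ∃ n0 : ℕ, ∀ (x : ℤ) (n : ℕ), n0 ≤ n →
      (1 + η) * Real.logb 2 |(x : ℝ)| ≤ n →
      ∀ c : ℕ → ℕ, c k = n → Dec (par (3 : ℕ) 1 x) ⌊δ * n⌋₊ K 0 (c 0) →
      (∀ i < k, Phrase (par (3 : ℕ) 1 x) (δ * n) 0 (c i) (c (i + 1))) →
      ∃ j q : ℕ, j + q ≤ n ∧ 1 ≤ q ∧ (q : ℝ) ≤ κ * n ∧
        (Tm (3 : ℕ) 1)^[j + q] x = (Tm (3 : ℕ) 1)^[j] x := by
  induction k with
  | zero =>
    intro K
    obtain ⟨ε, hε, n0, h⟩ := Pool.Agent.H547R3.Sub.init_gen2 Nat.prime_three (by norm_num) 1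
      (by norm_num) K η hη
    refine ⟨min ε κ, lt_min hε hκ, n0, ?_⟩
    intro x n hn hx c hc hD _
    have h1 : 0 ≤ min ε κ * n := mul_nonneg (le_min hε.le hκ.le) (Nat.cast_nonneg n)
    have h3 : ((⌊min ε κ * n⌋₊ : ℕ) : ℝ) ≤ min ε κ * n := Nat.floor_le h1
    rw [hc] at hD
    obtain ⟨j, π, -, hπ1, hπ, hj, hT⟩ := h x 0 n ⌊min ε κ * n⌋₊ hn
      (h3.trans (mul_le_mul_of_nonneg_right (min_le_left _ _) (Nat.cast_nonneg n))) hx
      (by rw [zero_add]; exact hD)
    refine ⟨j, π, by omega, hπ1, ?_, hT⟩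
    have h4 : (π : ℝ) ≤ (⌊min ε κ * n⌋₊ : ℕ) := by exact_mod_cast hπ
    exact (h4.trans h3).trans (mul_le_mul_of_nonneg_right (min_le_right _ _) (Nat.cast_nonneg n))
  | succ k ih =>
    intro K
    obtain ⟨δ1, hδ1, n1, h1⟩ := ih (K + 1)
    set r : ℕ := ⌈1 / δ1⌉₊ with hr
    obtain ⟨δ2, hδ2, n2, h2⟩ := ih (K * 2 ^ r)
    refine ⟨min δ1 δ2, lt_min hδ1 hδ2, max (max n1 n2) r, ?_⟩
    intro x n hn hx c hc hD hph
    have hn1 : n1 ≤ n := ((le_max_left _ _).trans (le_max_left _ _)).trans hn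
    have hn2 : n2 ≤ n := ((le_max_right _ _).trans (le_max_left _ _)).trans hn
    have hnr : r ≤ n := (le_max_right _ _).trans hn
    have hn0 : (0 : ℝ) ≤ n := Nat.cast_nonneg n
    have hr1 : 1 / δ1 ≤ r := Nat.le_ceil _
    rw [div_le_iff₀ hδ1] at hr1
    have hδL : 1 ≤ δ1 * n := by
      have h3 : (r : ℝ) ≤ n := by exact_mod_cast hnr
      nlinarith
    have hle1 : min δ1 δ2 * n ≤ δ1 * n := mul_le_mul_of_nonneg_right (min_le_left _ _) hn0
    have hle2 : min δ1 δ2 * n ≤ δ2 * n := mul_le_mul_of_nonneg_right (min_le_right _ _) hn0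
    have hph' : ∀ δ' : ℝ, min δ1 δ2 * n ≤ δ' * n → ∀ i < k,
        Phrase (par (3 : ℕ) 1 x) (δ' * n) 0 (c (i + 1)) (c (i + 1 + 1)) :=
      fun δ' hδ' i hi => phrase_mono (hph (i + 1) (by omega)) hδ'
    obtain ⟨h3, h4⟩ := hph 0 (by omega)
    have hcn : c 1 ≤ n := by
      rw [← hc]
      exact mono_le (fun i hi => (hph i hi).1) (k + 1) le_rfl 1 (by omega)
    have hcase : ∀ q : ℕ, 1 ≤ q → (q : ℝ) ≤ δ1 * n → HasPer (par (3 : ℕ) 1 x) q (c 0) (c 1) →
        ∃ j q : ℕ, j + q ≤ n ∧ 1 ≤ q ∧ (q : ℝ) ≤ κ * n ∧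
          (Tm (3 : ℕ) 1)^[j + q] x = (Tm (3 : ℕ) 1)^[j] x := by
      intro q hq hqL hper
      exact h1 x n hn1 hx (fun i => c (i + 1)) hc
        (dec_concat (dec_mono hD (Nat.floor_mono hle1))
          (dec_single h3 hq (Nat.le_floor hqL) hper)) (hph' δ1 hle1)
    rcases h4 with h4 | ⟨p, hp1, hp0, hcopy⟩
    · -- a short phrase
      refine hcase (max 1 (c 1 - c 0)) (le_max_left _ _) ?_ ?_
      · rw [Nat.cast_max, Nat.cast_sub h3]
        apply max_le
        · exact_mod_cast hδL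
        · simp only [zero_add] at h4
          linarith
      · intro j hj hj'
        omega
    · by_cases hp : (p : ℝ) ≤ δ1 * n
      · -- a short shift
        refine hcase p hp1 hp ?_
        intro j hj hj'
        have h5 := hcopy (j + p) (by omega) hj'
        rw [Nat.add_sub_cancel] at h5
        exact h5
      · -- a long shift
        push Not at hp
        have h5 : c 1 ≤ c 0 + r * p := by
          have h6 : (n : ℝ) ≤ r * p := by
            calc (n : ℝ) = 1 * n := (one_mul _).symm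
              _ ≤ (r * δ1) * n := mul_le_mul_of_nonneg_right hr1 hn0
              _ = r * (δ1 * n) := by ring
              _ ≤ r * p := mul_le_mul_of_nonneg_left hp.le (Nat.cast_nonneg r)
          have h7 : n ≤ r * p := by exact_mod_cast h6
          omega
        have h6 := copies h3 hD hp1 (by omega) hcopy r
        simp only [zero_add] at h6
        rw [min_eq_right h5] at h6
        exact h2 x n hn2 hx (fun i => c (i + 1)) hc (dec_mono h6 (Nat.floor_mono hle2)) (hph' δ2 hle2)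

/-- integers whose parity word has few phrases -/
theorem crit (k : ℕ) (η κ : ℝ) (hη : 0 < η) (hκ : 0 < κ) :
    ∃ δ : ℝ, 0 < δ ∧ ∃ n0 : ℕ, ∀ (x : ℤ) (n : ℕ), n0 ≤ n → (1 + η) * Real.logb 2 |(x : ℝ)| ≤ n →
      Phr (par (3 : ℕ) 1 x) (δ * n) k 0 n →
      ∃ j q : ℕ, j + q ≤ n ∧ 1 ≤ q ∧ (q : ℝ) ≤ κ * n ∧
        (Tm (3 : ℕ) 1)^[j + q] x = (Tm (3 : ℕ) 1)^[j] x := by
  obtain ⟨δ, hδ, n0, h⟩ := crit_aux η κ hη hκ k 0
  refine ⟨δ, hδ, n0, ?_⟩
  intro x n hn hx hph
  obtain ⟨c, hc0, hck, hc⟩ := hph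
  exact h x n hn hx c hck
    ⟨fun _ => 0, rfl, hc0.symm, fun i hi => absurd hi (by omega), fun i hi => absurd hi (by omega)⟩ hc

end Pool.Agent.H77.Lz
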